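import Pool.Agent.Helper68.LM2.Geo
import Pool.Agent.Helper12.LM.M_CAP
import Pool.Agent.Helper31.LM.M_SD
import Pool.Agent.Helper82.LM.M_SUP

/-!
# Project LM2, module CAPT: condition (G_p) gives the summability of tau^p
-/

set_option autoImplicit false

open MeasureTheory Set Filter Topology
open scoped ENNReal RealInnerProductSpace

namespace Pool.Agent.Helper13.LM2

open Pool.Agent.Helper68.LM2 Pool.Agent.Helper68.LM
open Pool.Agent.Helper61.Lacunary (ConditionG LpBounded arclength linePlus capPlus capMinus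
  capLength Admissible capIntegral)

theorem hCAPT : StCAPT := by
  intro Ω P u v c p φ m₀ τ hop hconv _ hne hp hG hS hPf hcurve hLev
  obtain ⟨⟨δ₀, hadm⟩, hG2⟩ := hG
  obtain ⟨A', hA'⟩ := hG2 δ₀ hadm
  have hδ₀ : 0 < δ₀ := hadm.1
  have hsd := Pool.Agent.Helper31.LM.hSD P u v c φ hS
  have hsup := Pool.Agent.Helper82.LM.hSUP Ω P u v c φ hop hconv hne hS hcurve
  obtain ⟨hu, hv, huv, hc0, hc1, -, hcont, -, -, -, -⟩ := hS
  have hline := Pool.Agent.Helper12.LM.linePlus_eq (v := v) hne (frontier_subset_closure hPf) hsup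
  have hmono : StrictMonoOn φ (Ioo 0 c) := by
    refine strictMonoOn_of_deriv_pos (convex_Ioo 0 c) (hcont.mono Ioo_subset_Icc_self) ?_
    intro x hx
    rw [interior_Ioo] at hx
    exact (hsd x hx).2.1
  have hcap : ∀ t ∈ Ioo 0 c, ∀ δ, φ t ≤ δ → ENNReal.ofReal t ≤ capLength Ω (-v) δ := by
    intro t ht δ hδ
    refine le_trans (Pool.Agent.Helper12.LM.length_curve (P := P) (v := v) (φ := φ) hu huv t)
      (le_trans ?_ (le_max_left _ _))
    unfold arclength
    rw [Measure.restrict_apply' isClosed_frontier.measurableSet]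
    refine measure_mono ?_
    rintro _ ⟨s, hs, rfl⟩
    have hsc : s ∈ Ioo 0 c := ⟨hs.1, lt_trans hs.2 ht.2⟩
    have hf : curve P u v φ s ∈ frontier Ω := hcurve ⟨s, hsc, rfl⟩
    refine ⟨⟨hf, ?_⟩, hf⟩
    have hz : P + s • u ∈ linePlus Ω (-v) := by
      rw [hline]
      show ⟪P + s • u, -v⟫ = ⟪P, -v⟫
      rw [inner_add_left, inner_smul_left, inner_neg_right, inner_neg_right, huv]
      simp
    refine le_trans (Metric.infDist_le_dist_of_mem hz) ?_
    have : dist (curve P u v φ s) (P + s • u) = φ s := by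
      rw [dist_eq_norm]
      unfold curve
      rw [add_sub_cancel_left, norm_smul, hv, mul_one, Real.norm_eq_abs,
        abs_of_pos (hsd s hsc).1]
    rw [this]
    exact le_trans (le_of_lt (hmono hsc ht hs.2)) hδ
  obtain ⟨⟨hanti, hpos, -, -⟩, hτc, hφτ, -⟩ := hLev
  have hmem : ∀ n, τ n ∈ Ioo 0 c := fun n =>
    ⟨hpos n, lt_of_le_of_lt (hanti.antitone (Nat.zero_le n)) hτc⟩
  obtain ⟨n₀, hn₀⟩ : ∃ n₀ : ℕ, (2⁻¹ : ℝ) ^ n₀ < δ₀ / 2 :=
    exists_pow_lt_of_lt_one (by positivity) (by norm_num)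
  set a : ℕ → ℝ := fun i => (2⁻¹ : ℝ) ^ (m₀ + (i + n₀)) with ha
  have ha0 : ∀ i, 0 < a i := fun i => by rw [ha]; positivity
  have haδ : ∀ i, 2 * a i ≤ δ₀ := by
    intro i
    have h1 : a i ≤ (2⁻¹ : ℝ) ^ n₀ := by
      rw [ha]
      exact pow_le_pow_of_le_one (by norm_num) (by norm_num) (by omega)
    linarith
  have ha2 : ∀ i j, i < j → 2 * a j ≤ a i := by
    intro i j hij
    have h1 : a j ≤ (2⁻¹ : ℝ) ^ (m₀ + (i + n₀) + 1) := by
      rw [ha]
      exact pow_le_pow_of_le_one (by norm_num) (by norm_num) (by omega)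
    have h2 : (2⁻¹ : ℝ) ^ (m₀ + (i + n₀) + 1) = a i / 2 := by
      rw [ha, pow_succ]
      ring
    linarith
  have hdisj : Pairwise (Function.onFun Disjoint fun i => Ioo (a i) (2 * a i)) := by
    have key : ∀ i j, i < j → Disjoint (Ioo (a i) (2 * a i)) (Ioo (a j) (2 * a j)) := by
      intro i j hij
      rw [Set.disjoint_left]
      intro x hx hx'
      have := ha2 i j hij
      linarith [hx.1, hx'.2]
    intro i j hij
    rcases lt_or_gt_of_ne hij with h | h
    · exact key i j h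
    · exact (key j i h).symm
  have hsum : ∑' i : ℕ, ENNReal.ofReal (τ (i + n₀) ^ p * Real.log 2) ≤ ENNReal.ofReal A' := by
    calc ∑' i : ℕ, ENNReal.ofReal (τ (i + n₀) ^ p * Real.log 2)
        ≤ ∑' i : ℕ, ∫⁻ δ in Ioo (a i) (2 * a i),
            capLength Ω (-v) δ ^ p * ENNReal.ofReal δ⁻¹ := by
          refine ENNReal.tsum_le_tsum fun i => ?_
          have hτ0 : 0 < τ (i + n₀) := hpos _
          have h1 : ENNReal.ofReal (τ (i + n₀) ^ p * Real.log 2) =
              ∫⁻ δ in Ioo (a i) (2 * a i), ENNReal.ofReal (τ (i + n₀)) ^ p * ENNReal.ofReal δ⁻¹ := by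
            rw [lintegral_const_mul]
            · have h2a : 2 * a i / a i = 2 := mul_div_cancel_right₀ 2 (ha0 i).ne'
              rw [Pool.Agent.Helper12.LM.lint_inv (ha0 i) (by linarith [ha0 i]), h2a,
                ENNReal.ofReal_mul (Real.rpow_nonneg hτ0.le p), ENNReal.ofReal_rpow_of_pos hτ0]
            · exact ENNReal.measurable_ofReal.comp measurable_inv
          rw [h1]
          refine setLIntegral_mono' measurableSet_Ioo fun δ hδ => ?_
          gcongr
          refine hcap _ (hmem _) δ ?_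
          rw [hφτ]
          exact hδ.1.le
      _ = ∫⁻ δ in ⋃ i, Ioo (a i) (2 * a i), capLength Ω (-v) δ ^ p * ENNReal.ofReal δ⁻¹ :=
          (lintegral_iUnion (fun i => measurableSet_Ioo) hdisj _).symm
      _ ≤ ∫⁻ δ in Ioo 0 δ₀, capLength Ω (-v) δ ^ p * ENNReal.ofReal δ⁻¹ := by
          refine lintegral_mono_set ?_
          refine Set.iUnion_subset fun i => ?_
          exact Ioo_subset_Ioo (ha0 i).le (haδ i)
      _ ≤ ENNReal.ofReal A' := hA' (-v) (by rw [norm_neg, hv])
  have hne' : ∑' i : ℕ, ENNReal.ofReal (τ (i + n₀) ^ p * Real.log 2) ≠ ∞ :=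
    (hsum.trans_lt ENNReal.ofReal_lt_top).ne
  have h1 := ENNReal.summable_toReal hne'
  have hl2 : 0 < Real.log 2 := Real.log_pos (by norm_num)
  have h2 : (fun i : ℕ => (ENNReal.ofReal (τ (i + n₀) ^ p * Real.log 2)).toReal) =
      fun i => τ (i + n₀) ^ p * Real.log 2 := by
    funext i
    have : 0 ≤ τ (i + n₀) ^ p := Real.rpow_nonneg (hpos _).le p
    exact ENNReal.toReal_ofReal (by positivity)
  rw [h2] at h1
  have h3 : Summable fun i => τ (i + n₀) ^ p := (summable_mul_right_iff hl2.ne').1 h1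
  exact (summable_nat_add_iff (f := fun n => τ n ^ p) n₀).1 h3

end Pool.Agent.Helper13.LM2
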