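import Pool.Agent.Helper68.LM2.St

/-!
# Project LM2, module EB: conditional expectations in the second variable
-/

set_option autoImplicit false

open MeasureTheory Set Filter Topology
open scoped ENNReal RealInnerProductSpace

namespace Pool.Agent.Helper13.LM2

open Pool.Agent.Helper68.LM2 Pool.Agent.Helper68.LM

theorem br_nonneg {g : ℝ × ℝ → ℝ} {K : ℝ} (h : ∀ z, |g z| ≤ K) : 0 ≤ K :=
  (abs_nonneg _).trans (h (0, 0))

theorem br_fiber {g : ℝ × ℝ → ℝ} (hg : BR g) (a : ℝ) : B1 (fun y => g (a, y)) := by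
  obtain ⟨hm, K, h1, h2⟩ := hg
  refine ⟨hm.comp measurable_prodMk_left, K, fun x => h1 _, fun x hx => h2 _ ?_⟩
  refine hx.trans_le ?_
  rw [Prod.norm_def, Real.norm_eq_abs, Real.norm_eq_abs]
  exact le_max_right _ _

theorem br_int {g : ℝ × ℝ → ℝ} (hg : BR g) : Integrable g := by
  obtain ⟨hm, K, h1, h2⟩ := hg
  have h3 : IntegrableOn g (Metric.closedBall (0 : ℝ × ℝ) K) := by
    refine Measure.integrableOn_of_bounded (M := K) ?_ hm.aestronglyMeasurable ?_
    · exact (measure_closedBall_lt_top).ne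
    · exact ae_of_all _ fun z => by
        rw [Real.norm_eq_abs]
        exact h1 z
  refine (integrableOn_iff_integrable_of_support_subset ?_).1 h3
  intro z hz
  rw [mem_closedBall_zero_iff]
  by_contra h
  push Not at h
  exact hz (h2 z h)

theorem br_add {g h : ℝ × ℝ → ℝ} (hg : BR g) (hh : BR h) :
    BR (fun z => g z + h z) ∧ BR (fun z => g z - h z) := by
  obtain ⟨hm, K, h1, h2⟩ := hg
  obtain ⟨hm', K', h1', h2'⟩ := hh
  have hK := br_nonneg h1
  have hK' := br_nonneg h1'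
  refine ⟨⟨hm.add hm', K + K', fun z => ?_, fun z hz => ?_⟩,
    ⟨hm.sub hm', K + K', fun z => ?_, fun z hz => ?_⟩⟩
  · exact (abs_add_le _ _).trans (add_le_add (h1 z) (h1' z))
  · dsimp only
    rw [h2 z (by linarith), h2' z (by linarith), add_zero]
  · exact (abs_sub _ _).trans (add_le_add (h1 z) (h1' z))
  · dsimp only
    rw [h2 z (by linarith), h2' z (by linarith), sub_zero]

theorem br_ind {g : ℝ × ℝ → ℝ} {S : Set (ℝ × ℝ)} (hg : BR g) (hS : MeasurableSet S) :
    BR (S.indicator g) := by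
  obtain ⟨hm, K, h1, h2⟩ := hg
  have hK := br_nonneg h1
  refine ⟨hm.indicator hS, K, fun z => ?_, fun z hz => ?_⟩
  · by_cases h : z ∈ S
    · rw [Set.indicator_of_mem h]
      exact h1 z
    · rw [Set.indicator_of_notMem h, abs_zero]
      exact hK
  · by_cases h : z ∈ S
    · rw [Set.indicator_of_mem h]
      exact h2 z hz
    · rw [Set.indicator_of_notMem h]

theorem meas_E2 (m : ℤ) {g : ℝ × ℝ → ℝ} (hg : Measurable g) : Measurable (E2 m g) := by
  have hcell : MeasurableSet {w : (ℝ × ℝ) × ℝ | ⌊w.2 / (2 : ℝ) ^ m⌋ = ⌊w.1.2 / (2 : ℝ) ^ m⌋} := by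
    have h1 : Measurable fun w : (ℝ × ℝ) × ℝ => ⌊w.2 / (2 : ℝ) ^ m⌋ :=
      Int.measurable_floor.comp (measurable_snd.div_const _)
    have h2 : Measurable fun w : (ℝ × ℝ) × ℝ => ⌊w.1.2 / (2 : ℝ) ^ m⌋ :=
      Int.measurable_floor.comp (measurable_fst.snd.div_const _)
    exact measurableSet_eq_fun h1 h2
  have hF : Measurable ({w : (ℝ × ℝ) × ℝ | ⌊w.2 / (2 : ℝ) ^ m⌋ = ⌊w.1.2 / (2 : ℝ) ^ m⌋}.indicator
      fun w => g (w.1.1, w.2)) :=
    (hg.comp (measurable_fst.fst.prodMk measurable_snd)).indicator hcell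
  have h3 := (hF.stronglyMeasurable.integral_prod_right' (ν := volume)).measurable
  have h4 : E2 m g = fun z : ℝ × ℝ => ((2 : ℝ) ^ m)⁻¹ *
      ∫ y, {w : (ℝ × ℝ) × ℝ | ⌊w.2 / (2 : ℝ) ^ m⌋ = ⌊w.1.2 / (2 : ℝ) ^ m⌋}.indicator
        (fun w => g (w.1.1, w.2)) (z, y) := by
    funext z
    unfold E2 E1
    congr 1
    have hc : MeasurableSet (cell m z.2) := by
      have h1 : Measurable fun y : ℝ => ⌊y / (2 : ℝ) ^ m⌋ :=
        Int.measurable_floor.comp (measurable_id.div_const _)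
      exact measurableSet_eq_fun h1 measurable_const
    rw [← integral_indicator hc]
    refine integral_congr_ae (ae_of_all _ fun y => ?_)
    by_cases h : ⌊y / (2 : ℝ) ^ m⌋ = ⌊z.2 / (2 : ℝ) ^ m⌋
    · have h5 : y ∈ cell m z.2 := h
      have h6 : (z, y) ∈ {w : (ℝ × ℝ) × ℝ | ⌊w.2 / (2 : ℝ) ^ m⌋ = ⌊w.1.2 / (2 : ℝ) ^ m⌋} := h
      dsimp only
      rw [Set.indicator_of_mem h5, Set.indicator_of_mem h6]
    · have h5 : y ∉ cell m z.2 := h
      have h6 : (z, y) ∉ {w : (ℝ × ℝ) × ℝ | ⌊w.2 / (2 : ℝ) ^ m⌋ = ⌊w.1.2 / (2 : ℝ) ^ m⌋} := h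
      dsimp only
      rw [Set.indicator_of_notMem h5, Set.indicator_of_notMem h6]
  rw [h4]
  exact h3.const_mul _

theorem hEB (hEA : StEA) : StEB := by
  obtain ⟨_, a2, _, _, _, a6, a7, _, _, a10, _, _, _, a14⟩ := hEA
  have b5 : ∀ (m : ℤ) (g : ℝ × ℝ → ℝ) (K : ℝ) (z : ℝ × ℝ), BR g → (∀ w, |g w| ≤ K) →
      |E2 m g z| ≤ K := fun m g K z hg hK => a10 m _ K z.2 (br_fiber hg z.1) fun y => hK _
  have b4 : ∀ (m : ℤ) (g : ℝ × ℝ → ℝ), BR g → BR (E2 m g) := by
    intro m g hg
    obtain ⟨hm, K, h1, h2⟩ := id hg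
    have hK := br_nonneg h1
    have h2m : (0 : ℝ) < (2 : ℝ) ^ m := by positivity
    refine ⟨meas_E2 m hm, K + (2 : ℝ) ^ m, fun z => ?_, fun z hz => ?_⟩
    · exact (b5 m g K z hg h1).trans (by linarith)
    · unfold E2 E1
      have h3 : ∫ y in cell m z.2, g (z.1, y) = 0 := by
        refine setIntegral_eq_zero_of_forall_eq_zero fun y hy => ?_
        refine h2 _ ?_
        rw [Prod.norm_def, Real.norm_eq_abs, Real.norm_eq_abs] at hz ⊢
        rcases lt_max_iff.1 hz with h4 | h4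
        · exact lt_max_of_lt_left (by linarith)
        · refine lt_max_of_lt_right ?_
          dsimp only
          have h5 := (a2 m z.2).2.2.2 hy
          rw [Set.mem_Icc] at h5
          have h6 : |z.2| ≤ |y| + |z.2 - y| := by
            have := abs_add_le y (z.2 - y)
            rwa [add_sub_cancel] at this
          have h7 : |z.2 - y| ≤ (2 : ℝ) ^ m := by
            rw [abs_le]
            constructor <;> linarith [h5.1, h5.2]
          linarith
      rw [h3, mul_zero]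
  refine ⟨fun g hg => ⟨br_fiber hg, br_int hg⟩, fun g h hg hh => br_add hg hh,
    fun g S hg hS => br_ind hg hS, fun m g hg => ⟨b4 m g hg, ?_⟩, b5, ?_, ?_, ?_, ?_⟩
  · exact (br_add (b4 m g hg) (b4 (m + 1) g hg)).2
  · intro m g z _ hg
    unfold E2 E1
    exact mul_nonneg (by positivity) (integral_nonneg fun y => hg _)
  · intro m g h z hg hh
    refine ⟨a6 m _ _ z.2 (br_fiber hg z.1) (br_fiber hh z.1), ?_⟩
    have hh' : BR fun z => -1 * h z := by
      obtain ⟨hm, K, h1, h2⟩ := hh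
      refine ⟨hm.const_mul _, K, fun z => ?_, fun z hz => ?_⟩
      · dsimp only
        rw [neg_one_mul, abs_neg]
        exact h1 z
      · dsimp only
        rw [h2 z hz, mul_zero]
    have h3 := a6 m _ _ z.2 (br_fiber hg z.1) (br_fiber hh' z.1)
    have h4 := a7 m (fun y => h (z.1, y)) (-1) z.2
    have h5 : (fun w => g w - h w) = fun w => g w + -1 * h w := by
      funext w
      ring
    rw [h5]
    unfold E2
    rw [h3, h4]
    ring
  · intro m g hg
    have hm2 : Measurable (E2 m g) := (b4 m g hg).1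
    rw [Measure.volume_eq_prod, lintegral_prod _ hm2.enorm.aemeasurable,
      lintegral_prod _ hg.1.enorm.aemeasurable]
    refine lintegral_mono fun a => ?_
    exact a14 m _ (br_fiber hg a)
  · intro m g z hg
    unfold M2 Mx
    refine le_trans ?_ (le_iSup _ m)
    unfold E2 E1
    rw [enorm_mul]
    have h2m : (0 : ℝ) < (2 : ℝ) ^ m := by positivity
    have e1 : ‖((2 : ℝ) ^ m)⁻¹‖ₑ = ENNReal.ofReal ((2 : ℝ) ^ (-m)) := by
      rw [Real.enorm_eq_ofReal (by positivity), zpow_neg]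
    rw [e1]
    refine mul_le_mul_right ?_ _
    refine (enorm_integral_le_lintegral_enorm _).trans ?_
    have hsub : cell m z.2 ⊆ Icc (z.2 - (2 : ℝ) ^ m) (z.2 + (2 : ℝ) ^ m) := (a2 m z.2).2.2.2
    refine (lintegral_mono_set hsub).trans (le_of_eq ?_)
    rw [← lintegral_indicator measurableSet_Icc, ← lintegral_indicator measurableSet_Icc,
      ← lintegral_add_left_eq_self _ z.2]
    refine lintegral_congr fun s => ?_
    by_cases h : s ∈ Icc (-(2 : ℝ) ^ m) ((2 : ℝ) ^ m)
    · have h' : z.2 + s ∈ Icc (z.2 - (2 : ℝ) ^ m) (z.2 + (2 : ℝ) ^ m) := by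
        rw [Set.mem_Icc] at h ⊢
        constructor <;> linarith [h.1, h.2]
      rw [Set.indicator_of_mem h, Set.indicator_of_mem h']
    · have h' : z.2 + s ∉ Icc (z.2 - (2 : ℝ) ^ m) (z.2 + (2 : ℝ) ^ m) := by
        intro h'
        apply h
        rw [Set.mem_Icc] at h' ⊢
        constructor <;> linarith [h'.1, h'.2]
      rw [Set.indicator_of_notMem h, Set.indicator_of_notMem h']

end Pool.Agent.Helper13.LM2
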